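import Pool.Agent.H8.AV3.Stmts7

/-!
# DWP: the discriminant as a polynomial in the coefficient of `MXZ`
-/

set_option autoImplicit false

namespace Pool.Agent.H88.AV3C

open Polynomial Matrix Pool.AVR Pool.AV3

namespace DWP

section Ring

variable {R : Type} [CommRing R]

omit [CommRing R] in
/-- The values of the updated coefficient vector. -/
theorem upd (c : Fin 10 → R) (w : R) :
    Function.update c 4 w = ![c 0, c 1, c 2, c 3, w, c 5, c 6, c 7, c 8, c 9] := by
  ext i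
  fin_cases i <;> rfl

/-- The linear coefficient of `jb4`. -/
def B1 (c : Fin 10 → R) : R :=
  9 * c 0 * c 6 * c 9 - c 0 * c 7 * c 8 - c 1 * c 3 * c 9 - c 1 * c 5 * c 7 - c 2 * c 3 * c 8 -
    c 2 * c 5 * c 6

/-- The linear coefficient of `jb6`. -/
def S1 (c : Fin 10 → R) : R :=
  -(12 * c 0 * c 1 * c 6 * c 8 * c 9) + 4 * c 0 * c 1 * c 7 ^ 2 * c 9 -
    12 * c 0 * c 2 * c 6 * c 7 * c 9 + 4 * c 0 * c 2 * c 6 * c 8 ^ 2 +
    4 * c 0 * c 3 ^ 2 * c 8 * c 9 - 12 * c 0 * c 3 * c 5 * c 6 * c 9 +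
    4 * c 0 * c 3 * c 5 * c 7 * c 8 + 4 * c 0 * c 5 ^ 2 * c 6 * c 7 +
    4 * c 1 ^ 2 * c 5 * c 6 * c 9 + 4 * c 1 * c 2 * c 3 * c 7 * c 9 +
    4 * c 1 * c 2 * c 5 * c 6 * c 8 + 4 * c 2 ^ 2 * c 3 * c 6 * c 9

/-- The second coefficient of `jb6`. -/
def S2 (c : Fin 10 → R) : R :=
  -(4 * (c 0 * c 3 * c 7 * c 9 + c 0 * c 5 * c 6 * c 8 + c 1 * c 2 * c 6 * c 9))

theorem jb4_upd (c : Fin 10 → R) (w : R) :
    jb4 (Function.update c 4 w) = jb4 (Function.update c 4 0) + B1 c * w := by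
  rw [upd, upd]
  simp only [jb4, B1]
  simp
  ring

theorem jb6_upd (c : Fin 10 → R) (w : R) :
    jb6 (Function.update c 4 w) = jb6 (Function.update c 4 0) + S1 c * w + S2 c * w ^ 2 +
      4 * c 0 * c 6 * c 9 * w ^ 3 := by
  rw [upd, upd]
  simp only [jb6, S1, S2]
  simp
  ring

/-- The shape of the discriminant. -/
theorem disc_form (T A β0 β1 σ0 σ1 σ2 σ3 : R) : ∃ r : R[X], r.natDegree ≤ 7 ∧
    disc (C T * X ^ 2 - C A) (C β0 + C β1 * X)
      (C σ0 + C σ1 * X + C σ2 * X ^ 2 + C σ3 * X ^ 3) =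
    C (-(4 * T ^ 3 * σ3)) * X ^ 9 + C (-(4 * T ^ 3 * σ2)) * X ^ 8 + r := by
  refine ⟨(C T * X ^ 2 - C A) ^ 2 * (C β0 + C β1 * X) ^ 2 - 4 * (C β0 + C β1 * X) ^ 3 +
    18 * (C T * X ^ 2 - C A) * (C β0 + C β1 * X) *
      (C σ0 + C σ1 * X + C σ2 * X ^ 2 + C σ3 * X ^ 3) -
    27 * (C σ0 + C σ1 * X + C σ2 * X ^ 2 + C σ3 * X ^ 3) ^ 2 -
    4 * (-(3 * C T ^ 2 * C A * X ^ 4) + 3 * C T * C A ^ 2 * X ^ 2 - C A ^ 3) *
      (C σ0 + C σ1 * X + C σ2 * X ^ 2 + C σ3 * X ^ 3) -
    4 * C T ^ 3 * X ^ 6 * (C σ0 + C σ1 * X), ?_, ?_⟩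
  · compute_degree
  · simp only [disc, C_neg, C_mul, C_pow]
    have h4 : (C (4 : R) : R[X]) = 4 := map_ofNat C 4
    rw [h4]
    ring

theorem map_jb4 {S : Type} [CommRing S] (φ : R →+* S) (c : Fin 10 → R) :
    φ (jb4 c) = jb4 (fun i => φ (c i)) := by
  simp only [jb4, map_add, map_sub, map_neg, map_mul, map_pow, map_ofNat]

theorem map_jb6 {S : Type} [CommRing S] (φ : R →+* S) (c : Fin 10 → R) :
    φ (jb6 c) = jb6 (fun i => φ (c i)) := by
  simp only [jb6, map_add, map_sub, map_neg, map_mul, map_pow, map_ofNat]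

theorem map_dJc {S : Type} [CommRing S] (φ : R →+* S) (τ : R) (c : Fin 10 → R) :
    φ (dsc (Jc τ c)) = dsc (Jc (φ τ) (fun i => φ (c i))) := by
  simp only [dsc, disc, Jc, map_add, map_sub, map_mul, map_pow, map_ofNat, map_jb4, map_jb6]

theorem map_upd {S : Type} [CommRing S] (φ : R →+* S) (c : Fin 10 → R) (w : R) :
    (fun i => φ (Function.update c 4 w i)) = Function.update (fun i => φ (c i)) 4 (φ w) := by
  rw [upd, upd]
  ext i
  fin_cases i <;> rfl

theorem DW_form (τ : R) (c : Fin 10 → R) : ∃ r : R[X], r.natDegree ≤ 7 ∧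
    DW τ c = C (-(4 * (τ ^ 2) ^ 3 * (τ ^ 2 * (4 * c 0 * c 6 * c 9)))) * X ^ 9 +
      C (-(4 * (τ ^ 2) ^ 3 * (τ ^ 2 * S2 c))) * X ^ 8 + r := by
  obtain ⟨r, hr, h⟩ := disc_form (τ ^ 2) (c 1 * c 8 + c 2 * c 7 + c 3 * c 5)
    (τ * jb4 (Function.update c 4 0)) (τ * B1 c) (τ ^ 2 * jb6 (Function.update c 4 0))
    (τ ^ 2 * S1 c) (τ ^ 2 * S2 c) (τ ^ 2 * (4 * c 0 * c 6 * c 9))
  refine ⟨r, hr, ?_⟩
  rw [← h]
  have h4 : C (jb4 (Function.update c 4 0)) =
      jb4 (Function.update (fun i => C (c i)) 4 (0 : R[X])) := by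
    rw [map_jb4, map_upd, C_0]
  have h6 : C (jb6 (Function.update c 4 0)) =
      jb6 (Function.update (fun i => C (c i)) 4 (0 : R[X])) := by
    rw [map_jb6, map_upd, C_0]
  have hB : C (B1 c) = B1 (fun i => C (c i)) := by
    simp only [B1, map_sub, map_mul, map_ofNat]
  have hS1 : C (S1 c) = S1 (fun i => C (c i)) := by
    simp only [S1, map_add, map_sub, map_neg, map_mul, map_pow, map_ofNat]
  have hS2 : C (S2 c) = S2 (fun i => C (c i)) := by
    simp only [S2, map_add, map_neg, map_mul, map_ofNat]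
  have hS3 : C (4 * c 0 * c 6 * c 9) = 4 * C (c 0) * C (c 6) * C (c 9) := by
    simp only [map_mul, map_ofNat]
  rw [C_mul (a := τ ^ 2) (b := 4 * c 0 * c 6 * c 9), hS3, C_mul (a := τ ^ 2) (b := S2 c), hS2,
    C_mul (a := τ ^ 2) (b := S1 c), hS1, C_mul (a := τ) (b := B1 c), hB,
    C_mul (a := τ) (b := jb4 (Function.update c 4 0)), h4,
    C_mul (a := τ ^ 2) (b := jb6 (Function.update c 4 0)), h6]
  show dsc _ = disc _ _ _
  have hJ : Jc (C τ) (Function.update (fun i => C (c i)) 4 X) =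
      (C (τ ^ 2) * X ^ 2 - C (c 1 * c 8 + c 2 * c 7 + c 3 * c 5),
        C τ * jb4 (Function.update (fun i => C (c i)) 4 (0 : R[X])) +
          C τ * B1 (fun i => C (c i)) * X,
        C (τ ^ 2) * jb6 (Function.update (fun i => C (c i)) 4 (0 : R[X])) +
          C (τ ^ 2) * S1 (fun i => C (c i)) * X + C (τ ^ 2) * S2 (fun i => C (c i)) * X ^ 2 +
          C (τ ^ 2) * (4 * C (c 0) * C (c 6) * C (c 9)) * X ^ 3) := by
    simp only [Jc, Prod.mk.injEq]
    refine ⟨?_, ?_, ?_⟩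
    · rw [upd]
      simp [C_mul, C_add, C_pow]
    · rw [jb4_upd]
      ring
    · rw [jb6_upd, C_pow]
      ring
  rw [hJ, dsc]

theorem coefs (τ : R) (hτ : 2 * τ = 1) (c : Fin 10 → R) :
    (DW τ c).natDegree ≤ 9 ∧ (DW τ c).coeff 9 = -(τ ^ 4 * (c 0 * c 6 * c 9)) ∧
    (DW τ c).coeff 8 =
      τ ^ 4 * (c 0 * c 3 * c 7 * c 9 + c 0 * c 5 * c 6 * c 8 + c 1 * c 2 * c 6 * c 9) := by
  obtain ⟨r, hr, h⟩ := DW_form τ c
  have h16 : 16 * τ ^ 4 = 1 := by
    calc 16 * τ ^ 4 = (2 * τ) ^ 4 := by ring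
      _ = 1 := by rw [hτ, one_pow]
  have hr9 : r.coeff 9 = 0 := coeff_eq_zero_of_natDegree_lt (by omega)
  have hr8 : r.coeff 8 = 0 := coeff_eq_zero_of_natDegree_lt (by omega)
  rw [h]
  refine ⟨?_, ?_, ?_⟩
  · refine (natDegree_add_le _ _).trans (max_le ?_ (by omega))
    refine (natDegree_add_le _ _).trans (max_le ?_ ?_)
    · exact natDegree_C_mul_X_pow_le _ _
    · exact (natDegree_C_mul_X_pow_le _ _).trans (by norm_num)
  · simp only [coeff_add, coeff_C_mul, coeff_X_pow, hr9]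
    norm_num
    linear_combination (τ ^ 4 * (c 0 * c 6 * c 9)) * h16
  · simp only [coeff_add, coeff_C_mul, coeff_X_pow, hr8, S2]
    norm_num
    linear_combination (τ ^ 4 * (c 0 * c 3 * c 7 * c 9 + c 0 * c 5 * c 6 * c 8 +
      c 1 * c 2 * c 6 * c 9)) * h16

theorem evals (τ : R) (c : Fin 10 → R) (w : R) :
    (DW τ c).eval w = dsc (Jc τ (Function.update c 4 w)) ∧
      DW τ (Function.update c 4 w) = DW τ c := by
  refine ⟨?_, ?_⟩
  · have h := map_dJc (evalRingHom w) (C τ) (Function.update (fun i => C (c i)) 4 X)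
    rw [map_upd] at h
    simp only [coe_evalRingHom, eval_C, eval_X] at h
    exact h
  · have h : Function.update (fun i => C (Function.update c 4 w i)) 4 (X : R[X]) =
        Function.update (fun i => C (c i)) 4 X := by
      rw [upd, upd, upd]
      ext i
      fin_cases i <;> rfl
    show dsc _ = dsc _
    rw [h]

end Ring

section Weights

variable {F : Type} [Field F]

/-- The coefficients have degree at most `k`. -/
def W (k : ℕ) (p : F[X][X]) : Prop := ∀ i, (p.coeff i).natDegree ≤ k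

theorem W.mono {a b : ℕ} {p : F[X][X]} (h : W a p) (hab : a ≤ b) : W b p :=
  fun i => (h i).trans hab

theorem W.add {k : ℕ} {p q : F[X][X]} (hp : W k p) (hq : W k q) : W k (p + q) := by
  intro i
  rw [coeff_add]
  exact (natDegree_add_le _ _).trans (max_le (hp i) (hq i))

theorem W.neg {k : ℕ} {p : F[X][X]} (hp : W k p) : W k (-p) := by
  intro i
  rw [coeff_neg, natDegree_neg]
  exact hp i

theorem W.sub {k : ℕ} {p q : F[X][X]} (hp : W k p) (hq : W k q) : W k (p - q) := by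
  intro i
  rw [coeff_sub]
  exact (natDegree_sub_le _ _).trans (max_le (hp i) (hq i))

theorem W.mul {a b : ℕ} {p q : F[X][X]} (hp : W a p) (hq : W b q) : W (a + b) (p * q) := by
  intro i
  rw [coeff_mul]
  refine natDegree_sum_le_of_forall_le _ _ (fun x _ => ?_)
  exact natDegree_mul_le.trans (add_le_add (hp _) (hq _))

theorem W.C0 (x : F[X]) (hx : x.natDegree ≤ 0) : W 0 (C x) := by
  intro i
  rw [coeff_C]
  split_ifs
  · exact hx
  · simp

theorem W.Cm {k : ℕ} (x : F[X]) (hx : x.natDegree ≤ k) : W k (C x) := by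
  intro i
  rw [coeff_C]
  split_ifs
  · exact hx
  · simp

theorem W.num (n : ℕ) [n.AtLeastTwo] : W 0 (OfNat.ofNat n : F[X][X]) := by
  have h : (OfNat.ofNat n : F[X][X]) = C (OfNat.ofNat n) := (map_ofNat C n).symm
  rw [h]
  apply W.C0
  rw [natDegree_ofNat]

theorem W.one : W 0 (1 : F[X][X]) := by
  rw [← C_1]
  exact W.C0 _ (by simp)

theorem W.pow {k : ℕ} {p : F[X][X]} (hp : W k p) (n : ℕ) : W (n * k) (p ^ n) := by
  induction n with
  | zero =>
    rw [pow_zero, Nat.zero_mul]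
    exact W.one
  | succ n ih =>
    rw [pow_succ, Nat.succ_mul]
    exact ih.mul hp

theorem W_jb4 {m : ℕ} (c : Fin 10 → F[X][X]) (hc : ∀ i, W m (c i)) : W (4 * m) (jb4 c) := by
  unfold jb4
  repeat' (with_reducible first | apply W.add | apply W.sub | apply W.neg)
  all_goals
    apply W.mono
    · repeat' (with_reducible first | apply W.mul | apply W.pow | exact W.num _ | exact hc _)
    · omega

theorem W_jb6 {m : ℕ} (c : Fin 10 → F[X][X]) (hc : ∀ i, W m (c i)) : W (6 * m) (jb6 c) := by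
  unfold jb6
  repeat' (with_reducible first | apply W.add | apply W.sub | apply W.neg)
  all_goals
    apply W.mono
    · repeat' (with_reducible first | apply W.mul | apply W.pow | exact W.num _ | exact hc _)
    · omega

theorem W_dsc {m : ℕ} (τ : F[X][X]) (hτ : W 0 τ) (c : Fin 10 → F[X][X]) (hc : ∀ i, W m (c i)) :
    W (12 * m) (dsc (Jc τ c)) := by
  have ha : W (2 * m) (Jc τ c).1 := by
    show W (2 * m) (τ ^ 2 * c 4 ^ 2 - (c 1 * c 8 + c 2 * c 7 + c 3 * c 5))
    repeat' (with_reducible first | apply W.add | apply W.sub | apply W.neg)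
    all_goals
      apply W.mono
      · repeat' (with_reducible first | apply W.mul | apply W.pow | exact W.num _ | exact hτ |
          exact hc _)
      · omega
  have hb : W (4 * m) (Jc τ c).2.1 := by
    show W (4 * m) (τ * jb4 c)
    exact (hτ.mul (W_jb4 c hc)).mono (by omega)
  have hc' : W (6 * m) (Jc τ c).2.2 := by
    show W (6 * m) (τ ^ 2 * jb6 c)
    exact ((hτ.pow 2).mul (W_jb6 c hc)).mono (by omega)
  unfold dsc disc
  repeat' (with_reducible first | apply W.add | apply W.sub | apply W.neg)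
  all_goals
    apply W.mono
    · repeat' (with_reducible first
      | apply W.mul
      | apply W.pow
      | exact W.num _
      | exact ha
      | exact hb
      | exact hc')
    · omega

end Weights

end DWP

open DWP

theorem dwp_thm : Pool.AV3.DWPStmt := by
  refine ⟨?_, ?_⟩
  · intro R _ τ hτ c
    obtain ⟨h1, h2, h3⟩ := coefs τ hτ c
    exact ⟨h1, h2, h3, fun w => evals τ c w⟩
  · intro F _ c m hc
    refine W_dsc (C (hf F)) (W.C0 _ (by unfold hf; simp)) _ (fun j => ?_)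
    by_cases hj : j = 4
    · subst hj
      rw [Function.update_self]
      intro i
      rw [coeff_X]
      split_ifs <;> simp
    · rw [Function.update_of_ne hj]
      exact W.Cm _ (hc j)

end Pool.Agent.H88.AV3C
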