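import Pool.Agent.H8.AV3.Stmts6

/-!
# STF: stabilisers over an algebraically closed field
-/

set_option autoImplicit false

namespace Pool.Agent.H88.AV3C

open Polynomial Matrix Pool.AVR Pool.AV3

namespace STF

/-- Over an algebraically closed field the curve has infinitely many points. -/
theorem infPt (hDSC : Pool.AVR.DSCStmt) (K : Type) [Field K] [IsAlgClosed K]
    (h2 : (2 : K) ≠ 0) (f : K × K × K) (hd : dsc f ≠ 0) : Infinite (PtT f) := by
  have : Infinite K := IsAlgClosed.instInfinite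
  have hΔ : (E f.1 f.2.1 f.2.2).Δ ≠ 0 := by
    rw [(hDSC K h2 f.1 f.2.1 f.2.2).2]
    refine mul_ne_zero ?_ hd
    have h16 : (16 : K) = 2 ^ 4 := by norm_num
    rw [h16]
    exact pow_ne_zero _ h2
  have hex : ∀ x : K, ∃ y : K, (E f.1 f.2.1 f.2.2).toAffine.Nonsingular x y := by
    intro x
    obtain ⟨y, hy⟩ := IsAlgClosed.exists_pow_nat_eq
      (x ^ 3 + f.1 * x ^ 2 + f.2.1 * x + f.2.2) (n := 2) (by norm_num)
    refine ⟨y, ?_⟩
    rw [← WeierstrassCurve.Affine.equation_iff_nonsingular_of_Δ_ne_zero hΔ]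
    rw [WeierstrassCurve.Affine.equation_iff]
    simp only [E]
    linear_combination hy
  choose y hy using hex
  refine Infinite.of_injective
    (fun x : K => (WeierstrassCurve.Affine.Point.some x (y x) (hy x) : PtT f)) ?_
  intro x x' h
  have h1 := h
  simp only [WeierstrassCurve.Affine.Point.some.injEq] at h1
  exact h1.1

/-- A form of the class has an affine base point. -/
theorem affine (hCLT : CLTStmt) (hTOR : TOR3Stmt) (K : Type) [Field K] [DecidableEq K]
    [Infinite K] (h2 : (2 : K) ≠ 0) (f : K × K × K) (hd : dsc f ≠ 0) (hinf : Infinite (PtT f))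
    (c : Fin 10 → K) (hc : Cls f c) :
    ∃ (x y : K) (_ : (E f.1 f.2.1 f.2.2).toAffine.Nonsingular x y)
      (g : Matrix (Fin 3) (Fin 3) K), Eqv g (FP f.1 f.2.1 x y) c := by
  obtain ⟨P, g, hE⟩ := hc
  rcases P with _ | ⟨x, y, h⟩
  · have hfin := (hTOR K h2 f hd).1
    obtain ⟨T, hT⟩ := hfin.exists_notMem
    obtain ⟨g', hE'⟩ := hCLT K h2 f hd 0 T
    have h3 : (0 : PtT f) - (T + T + T) ≠ 0 := by
      intro h4
      apply hT
      show T + T + T = 0
      rw [zero_sub, neg_eq_zero] at h4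
      exact h4
    rcases hQ : (0 : PtT f) - (T + T + T) with _ | ⟨x, y, h⟩
    · exact absurd hQ h3
    · rw [hQ] at hE'
      have hE2 : Eqv g' (FQ (f := f) .zero) (FP f.1 f.2.1 x y) := hE'
      exact ⟨x, y, h, g'⁻¹ * g, hE2.symm.trans hE⟩
  · exact ⟨x, y, h, g, hE⟩

/-- The solutions of `T + T + T = Q`. -/
theorem fib (hTOR : TOR3Stmt) (K : Type) [Field K] [DecidableEq K] (h2 : (2 : K) ≠ 0)
    (f : K × K × K) (hd : dsc f ≠ 0) (Q : PtT f) :
    {T : PtT f | T + T + T = Q}.Finite ∧ {T : PtT f | T + T + T = Q}.ncard ≤ 9 := by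
  obtain ⟨hfin, hcard⟩ := hTOR K h2 f hd
  by_cases hne : ({T : PtT f | T + T + T = Q}).Nonempty
  · obtain ⟨T₀, hT₀⟩ := hne
    have hT₀' : T₀ + T₀ + T₀ = Q := hT₀
    have hmaps : Set.MapsTo (fun T : PtT f => T - T₀) {T : PtT f | T + T + T = Q}
        {T : PtT f | T + T + T = 0} := by
      intro T hT
      have hT' : T + T + T = Q := hT
      show (T - T₀) + (T - T₀) + (T - T₀) = 0
      have h1 : (T - T₀) + (T - T₀) + (T - T₀) = (T + T + T) - (T₀ + T₀ + T₀) := by abel
      rw [h1, hT', hT₀', sub_self]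
    have hinj : Set.InjOn (fun T : PtT f => T - T₀) {T : PtT f | T + T + T = Q} := by
      intro T _ T' _ h
      exact sub_left_injective h
    refine ⟨Set.Finite.of_injOn hmaps hinj hfin, ?_⟩
    exact (Set.ncard_le_ncard_of_injOn _ hmaps hinj hfin).trans hcard
  · rw [Set.not_nonempty_iff_eq_empty] at hne
    rw [hne]
    simp

end STF

open STF

theorem stf_thm (hINJ : Pool.AV3.INJStmt) (hUNQ : Pool.AV3.UNQStmt) (hCLT : Pool.AV3.CLTStmt)
    (hTOR : Pool.AV3.TOR3Stmt) (hDSC : Pool.AVR.DSCStmt) : Pool.AV3.STFStmt := by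
  classical
  intro K _ _ h2 f hd c hc T hT hprop
  have : Infinite K := IsAlgClosed.instInfinite
  have hinf := infPt hDSC K h2 f hd
  obtain ⟨x, y, h, g₁, hE₁⟩ := affine hCLT hTOR K h2 f hd hinf c hc
  have hfib := fib hTOR K h2 f hd
  obtain ⟨a, b, c₀⟩ := f
  have hsep : (cub a b c₀).Separable := ((hDSC K h2 a b c₀).1).2 hd
  have hon : OnC a b c₀ x y := by
    have h5 := h.1
    rw [WeierstrassCurve.Affine.equation_iff] at h5
    simp only [E] at h5
    show y ^ 2 = x ^ 3 + a * x ^ 2 + b * x + c₀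
    linear_combination h5
  have h11 : g₁ * g₁⁻¹ = 1 := Matrix.mul_nonsing_inv g₁ hE₁.1
  have h11' : g₁⁻¹ * g₁ = 1 := Matrix.nonsing_inv_mul g₁ hE₁.1
  have hconj : ∀ g ∈ T, Eqv (g₁ * g * g₁⁻¹) (FP a b x y) (FP a b x y) := by
    intro g hg
    exact (hE₁.trans (hT g hg)).trans hE₁.symm
  -- the possible translations
  set p : K[X] := X ^ 3 + C a * X ^ 2 + C b * X with hp
  have hp0 : p ≠ 0 := by
    intro h0
    have h1 : p.coeff 3 = 1 := by
      rw [hp]
      simp [coeff_X_pow, coeff_C_mul]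
    rw [h0] at h1
    simp at h1
  have hpdeg : p.natDegree ≤ 3 := by
    rw [hp]
    compute_degree
  have hZcard : p.roots.toFinset.card ≤ 3 :=
    (Multiset.toFinset_card_le _).trans ((card_roots' p).trans hpdeg)
  have hkey : ∀ g ∈ T, ∃ t : PtT (a, b, c₀), (∃ η ∈ p.roots.toFinset,
      ∃ h'' : (E a b c₀).toAffine.Nonsingular (x + η) y,
      (WeierstrassCurve.Affine.Point.some x y h : Pt a b c₀) - (t + t + t) =
        WeierstrassCurve.Affine.Point.some (x + η) y h'') ∧
      ∃ s : K, s ≠ 0 ∧ (g₁ * g * g₁⁻¹) *ᵥ e1 = s • phi x y t := by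
    intro g hg
    obtain ⟨t, η, h'', ha, hb, hc', hpt, hs, -⟩ :=
      hINJ K h2 a b c₀ a b c₀ hsep x y h x y hon _ (hconj g hg)
    refine ⟨t, ⟨η, ?_, h'', hpt⟩, hs⟩
    rw [Multiset.mem_toFinset, mem_roots hp0, IsRoot.def, hp]
    simp only [eval_add, eval_mul, eval_pow, eval_X, eval_C]
    linear_combination -hc'
  choose! τ hτ1 hτ2 using hkey
  -- the set of values
  let S : K → Set (PtT (a, b, c₀)) := fun η => {t | ∃ h'' : (E a b c₀).toAffine.Nonsingular
    (x + η) y, (WeierstrassCurve.Affine.Point.some x y h : Pt a b c₀) - (t + t + t) =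
        WeierstrassCurve.Affine.Point.some (x + η) y h''}
  have hS : ∀ η, (S η).Finite ∧ (S η).ncard ≤ 9 := by
    intro η
    by_cases hn : (E a b c₀).toAffine.Nonsingular (x + η) y
    · have hsub : S η ⊆ {t : PtT (a, b, c₀) | t + t + t =
          (WeierstrassCurve.Affine.Point.some x y h : Pt a b c₀) -
            WeierstrassCurve.Affine.Point.some (x + η) y hn} := by
        intro t ht
        obtain ⟨h'', ht⟩ := ht
        show t + t + t = _
        rw [← ht, sub_sub_cancel]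
      obtain ⟨hf, hcd⟩ := hfib ((WeierstrassCurve.Affine.Point.some x y h : Pt a b c₀) -
            WeierstrassCurve.Affine.Point.some (x + η) y hn)
      exact ⟨hf.subset hsub, (Set.ncard_le_ncard hsub hf).trans hcd⟩
    · have hemp : S η = ∅ := by
        ext t
        constructor
        · rintro ⟨h'', _⟩
          exact absurd h'' hn
        · intro ht
          exact absurd ht (Set.notMem_empty _)
      rw [hemp]
      simp
  have hUfin : (⋃ η ∈ p.roots.toFinset, S η).Finite :=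
    Set.Finite.biUnion (Finset.finite_toSet _) (fun η _ => (hS η).1)
  have hUcard : (⋃ η ∈ p.roots.toFinset, S η).ncard ≤ 27 := by
    calc (⋃ η ∈ p.roots.toFinset, S η).ncard ≤ ∑ η ∈ p.roots.toFinset, (S η).ncard :=
          Finset.set_ncard_biUnion_le _ _
      _ ≤ ∑ η ∈ p.roots.toFinset, 9 := Finset.sum_le_sum (fun η _ => (hS η).2)
      _ = p.roots.toFinset.card * 9 := by rw [Finset.sum_const, smul_eq_mul]
      _ ≤ 3 * 9 := Nat.mul_le_mul_right _ hZcard
      _ = 27 := by norm_num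
  have hmain : T.card ≤ (⋃ η ∈ p.roots.toFinset, S η).ncard := by
    rw [← Set.ncard_coe_finset]
    apply Set.ncard_le_ncard_of_injOn τ ?_ ?_ hUfin
    · intro g hg
      obtain ⟨η, hη, h'', hpt⟩ := hτ1 g hg
      exact Set.mem_biUnion hη ⟨h'', hpt⟩
    intro g hg g' hg' heq
    by_contra hne
    obtain ⟨s, hs0, hs⟩ := hτ2 g hg
    obtain ⟨s', hs0', hs'⟩ := hτ2 g' hg'
    rw [heq] at hs
    have hG := hconj g hg
    have hG' := hconj g' hg'
    set G := g₁ * g * g₁⁻¹ with hGdef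
    set G' := g₁ * g' * g₁⁻¹ with hGdef'
    have hGG : G⁻¹ * G = 1 := Matrix.nonsing_inv_mul G hG.1
    have hGG2 : G * G⁻¹ = 1 := Matrix.mul_nonsing_inv G hG.1
    have hH : Eqv (G⁻¹ * G') (FP a b x y) (FP a b x y) := hG.symm.trans hG'
    have hphi : phi x y (τ g') = s⁻¹ • (G *ᵥ (e1 : Fin 3 → K)) := by
      rw [hs, smul_smul, inv_mul_cancel₀ hs0, one_smul]
    have hHe : (G⁻¹ * G') *ᵥ (e1 : Fin 3 → K) = (s' * s⁻¹) • (e1 : Fin 3 → K) := by
      rw [← Matrix.mulVec_mulVec, hs', hphi, smul_smul, Matrix.mulVec_smul, Matrix.mulVec_mulVec,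
        hGG, Matrix.one_mulVec]
    obtain ⟨r, η, hr, hu, hx, -, -, -⟩ := hUNQ K h2 a b x y a b x y _ _ hH hHe
    have hη : η = 0 := by linear_combination hx
    subst hη
    have hu' : G⁻¹ * G' = r • (1 : Matrix (Fin 3) (Fin 3) K) := by
      rw [hu]
      ext i j
      fin_cases i <;> fin_cases j <;> simp [uni]
    have hG2 : G' = r • G := by
      calc G' = G * (G⁻¹ * G') := by rw [← Matrix.mul_assoc, hGG2, Matrix.one_mul]
        _ = r • G := by rw [hu', Matrix.mul_smul, Matrix.mul_one]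
    apply hprop g hg g' hg' hne r
    calc g' = g₁⁻¹ * G' * g₁ := by
          rw [hGdef']
          calc g' = (g₁⁻¹ * g₁) * g' * (g₁⁻¹ * g₁) := by rw [h11', Matrix.one_mul, Matrix.mul_one]
            _ = _ := by simp only [Matrix.mul_assoc]
      _ = r • (g₁⁻¹ * G * g₁) := by rw [hG2, Matrix.mul_smul, Matrix.smul_mul]
      _ = r • g := by
          rw [hGdef]
          congr 1
          calc g₁⁻¹ * (g₁ * g * g₁⁻¹) * g₁ = (g₁⁻¹ * g₁) * g * (g₁⁻¹ * g₁) := by
                simp only [Matrix.mul_assoc]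
            _ = g := by rw [h11', Matrix.one_mul, Matrix.mul_one]
  exact (hmain.trans hUcard).trans (by norm_num)

end Pool.Agent.H88.AV3C
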